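import Mathlib
import Pool.Agent.H592.TR.Stm

/-!
# TR10 (helper299 for helper592): the volume of the union of the three parts of the cube is at least `25/216`
-/

set_option autoImplicit false

open MeasureTheory

namespace Pool.Agent.H299.TR

open Pool.Agent.H592.TR (Cube Reg)

/-- the pyramid over the coordinate `i` -/
def PP (i : Fin 3) : Set (Fin 3 → ℝ) :=
  {z | z i ∈ Set.Icc (1 / 6 : ℝ) (1 / 3) ∧ ∀ j : Fin 2, z (i.succAbove j) ∈ Set.Icc (2 / 3 - z i) (1 / 2)}

/-- its image in the product -/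
def QQ : Set (ℝ × (Fin 2 → ℝ)) :=
  {p | p.1 ∈ Set.Icc (1 / 6 : ℝ) (1 / 3) ∧ ∀ j : Fin 2, p.2 j ∈ Set.Icc (2 / 3 - p.1) (1 / 2)}

lemma meas_QQ : MeasurableSet QQ := by
  have h : IsClosed QQ := by
    have : QQ = (Prod.fst ⁻¹' Set.Icc (1 / 6 : ℝ) (1 / 3)) ∩
        ⋂ j : Fin 2, ({p : ℝ × (Fin 2 → ℝ) | 2 / 3 - p.1 ≤ p.2 j} ∩ {p | p.2 j ≤ 1 / 2}) := by
      ext p
      simp only [QQ, Set.mem_Icc, Set.mem_ofPred_eq, Set.mem_inter_iff, Set.mem_preimage, Set.mem_iInter]
    rw [this]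
    refine IsClosed.inter (isClosed_Icc.preimage continuous_fst) (isClosed_iInter fun j => ?_)
    refine IsClosed.inter (isClosed_le (by fun_prop) (by fun_prop)) (isClosed_le (by fun_prop) (by fun_prop))
  exact h.measurableSet

lemma vol_QQ : volume QQ ≤ ENNReal.ofReal (1 / 648) := by
  rw [Measure.volume_eq_prod, Measure.prod_apply meas_QQ]
  have hs : ∀ s : ℝ, volume (Prod.mk s ⁻¹' QQ) ≤
      (Set.Icc (1 / 6 : ℝ) (1 / 3)).indicator (fun s => ENNReal.ofReal ((s - 1 / 6) ^ 2)) s := by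
    intro s
    by_cases h : s ∈ Set.Icc (1 / 6 : ℝ) (1 / 3)
    · rw [Set.indicator_of_mem h]
      have he : Prod.mk s ⁻¹' QQ ⊆ Set.pi Set.univ (fun _ : Fin 2 => Set.Icc (2 / 3 - s) (1 / 2 : ℝ)) := by
        intro f hf
        intro j _
        exact hf.2 j
      refine (measure_mono he).trans ?_
      rw [volume_pi_pi]
      simp only [Real.volume_Icc, Finset.prod_const, Finset.card_univ, Fintype.card_fin]
      rw [← ENNReal.ofReal_pow (by linarith [h.1])]
      apply le_of_eq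
      congr 1
      ring
    · rw [Set.indicator_of_notMem h]
      have : Prod.mk s ⁻¹' QQ = ∅ := by
        ext f
        simp only [Set.mem_preimage, Set.mem_empty_iff_false, iff_false]
        intro hf
        exact h hf.1
      rw [this]
      simp
  refine (lintegral_mono hs).trans ?_
  rw [lintegral_indicator measurableSet_Icc]
  rw [← ofReal_integral_eq_lintegral_ofReal]
  · apply ENNReal.ofReal_le_ofReal
    rw [integral_Icc_eq_integral_Ioc, ← intervalIntegral.integral_of_le (by norm_num)]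
    have : ∫ x in (1 / 6 : ℝ)..(1 / 3), (x - 1 / 6) ^ 2 = ∫ x in (0 : ℝ)..(1 / 6), x ^ 2 := by
      have := intervalIntegral.integral_comp_sub_right (a := (1 / 6 : ℝ)) (b := 1 / 3) (fun x : ℝ => x ^ 2) (1 / 6)
      rw [this]
      norm_num
    rw [this, integral_pow]
    norm_num
  · apply Continuous.integrableOn_Icc
    fun_prop
  · exact Filter.Eventually.of_forall fun x => sq_nonneg _

lemma vol_PP (i : Fin 3) : volume (PP i) ≤ ENNReal.ofReal (1 / 648) := by
  have hmp := volume_preserving_piFinSuccAbove (fun _ : Fin 3 => ℝ) i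
  have : PP i = (MeasurableEquiv.piFinSuccAbove (fun _ => ℝ) i) ⁻¹' QQ := rfl
  rw [this, hmp.measure_preimage meas_QQ.nullMeasurableSet]
  exact vol_QQ

lemma vol_small : volume (Set.pi Set.univ (fun _ : Fin 3 => Set.Icc (1 / 3 : ℝ) (1 / 2))) = ENNReal.ofReal (1 / 216) := by
  rw [volume_pi_pi]
  simp only [Real.volume_Icc, Finset.prod_const, Finset.card_univ, Fintype.card_fin]
  rw [← ENNReal.ofReal_pow (by norm_num)]
  congr 1
  norm_num

lemma vol_cube : volume Cube = ENNReal.ofReal (1 / 8) := by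
  have : Cube = Set.pi Set.univ (fun _ : Fin 3 => Set.Ioo (0 : ℝ) (1 / 2)) := by
    ext z
    simp [Cube, Set.mem_pi]
  rw [this, volume_pi_pi]
  simp only [Real.volume_Ioo, Finset.prod_const, Finset.card_univ, Fintype.card_fin]
  rw [← ENNReal.ofReal_pow (by norm_num)]
  congr 1
  norm_num

lemma cover : Cube ⊆ (Reg 0 1 ∪ Reg 0 2 ∪ Reg 1 2) ∪
    (Set.pi Set.univ (fun _ : Fin 3 => Set.Icc (1 / 3 : ℝ) (1 / 2)) ∪ PP 0 ∪ PP 1 ∪ PP 2) := by
  intro z hz
  by_cases h01 : z 0 + z 1 < 2 / 3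
  · exact Or.inl (Or.inl (Or.inl ⟨hz, h01⟩))
  by_cases h02 : z 0 + z 2 < 2 / 3
  · exact Or.inl (Or.inl (Or.inr ⟨hz, h02⟩))
  by_cases h12 : z 1 + z 2 < 2 / 3
  · exact Or.inl (Or.inr ⟨hz, h12⟩)
  right
  push Not at h01 h02 h12
  have z0 := hz 0
  have z1 := hz 1
  have z2 := hz 2
  by_cases a0 : z 0 < 1 / 3
  · refine Or.inl (Or.inl (Or.inr ⟨⟨by linarith, by linarith⟩, ?_⟩))
    intro j
    fin_cases j
    · exact ⟨by change 2 / 3 - z 0 ≤ z 1; linarith, by change z 1 ≤ 1 / 2; linarith⟩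
    · exact ⟨by change 2 / 3 - z 0 ≤ z 2; linarith, by change z 2 ≤ 1 / 2; linarith⟩
  by_cases a1 : z 1 < 1 / 3
  · refine Or.inl (Or.inr ⟨⟨by linarith, by linarith⟩, ?_⟩)
    intro j
    fin_cases j
    · exact ⟨by change 2 / 3 - z 1 ≤ z 0; linarith, by change z 0 ≤ 1 / 2; linarith⟩
    · exact ⟨by change 2 / 3 - z 1 ≤ z 2; linarith, by change z 2 ≤ 1 / 2; linarith⟩
  by_cases a2 : z 2 < 1 / 3
  · refine Or.inr ⟨⟨by linarith, by linarith⟩, ?_⟩
    intro j
    fin_cases j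
    · exact ⟨by change 2 / 3 - z 2 ≤ z 0; linarith, by change z 0 ≤ 1 / 2; linarith⟩
    · exact ⟨by change 2 / 3 - z 2 ≤ z 1; linarith, by change z 1 ≤ 1 / 2; linarith⟩
  push Not at a0 a1 a2
  refine Or.inl (Or.inl (Or.inl ?_))
  intro j _
  fin_cases j
  · exact ⟨a0, by change z 0 ≤ 1 / 2; linarith⟩
  · exact ⟨a1, by change z 1 ≤ 1 / 2; linarith⟩
  · exact ⟨a2, by change z 2 ≤ 1 / 2; linarith⟩

theorem t10 : Pool.Agent.H592.TR.T10 := by
  unfold Pool.Agent.H592.TR.T10
  set U := Reg 0 1 ∪ Reg 0 2 ∪ Reg 1 2 with hU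
  have hsub : U ⊆ Cube := by
    rintro z ((h | h) | h)
    · exact h.1
    · exact h.1
    · exact h.1
  have hfin : volume U ≠ ⊤ := by
    refine ne_top_of_le_ne_top ?_ (measure_mono hsub)
    rw [vol_cube]
    exact ENNReal.ofReal_ne_top
  have h1 : volume Cube ≤ volume U + (ENNReal.ofReal (1 / 216) + ENNReal.ofReal (1 / 648) + ENNReal.ofReal (1 / 648) +
      ENNReal.ofReal (1 / 648)) := by
    refine (measure_mono cover).trans ?_
    refine (measure_union_le _ _).trans ?_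
    refine add_le_add le_rfl ?_
    refine (measure_union_le _ _).trans (add_le_add ?_ (vol_PP 2))
    refine (measure_union_le _ _).trans (add_le_add ?_ (vol_PP 1))
    refine (measure_union_le _ _).trans (add_le_add ?_ (vol_PP 0))
    exact vol_small.le
  rw [vol_cube, ← ENNReal.ofReal_toReal hfin] at h1
  have hnn : 0 ≤ (volume U).toReal := ENNReal.toReal_nonneg
  rw [← ENNReal.ofReal_add (by norm_num) (by norm_num), ← ENNReal.ofReal_add (by norm_num) (by norm_num),
    ← ENNReal.ofReal_add (by norm_num) (by norm_num), ← ENNReal.ofReal_add hnn (by norm_num)] at h1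
  rw [ENNReal.ofReal_le_ofReal_iff (by positivity)] at h1
  linarith

end Pool.Agent.H299.TR

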